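import Mathlib

/-!
# Adaptive reading of a random sequence

`m n` is the distribution of the bit at the place `n`; all bits are independent. A rule `g` reads
places one after the other, depending on the bits seen so far. Ville's inequality for
supermartingales along this (non-monotone) reading.
-/

namespace Run7.h713.KL

open MeasureTheory Filter Topology
open scoped ENNReal

/-- A rule: from the list of the bits seen so far (oldest first) the next place, and whether its
bit is selected. -/
abbrev Rule := List Bool → Option (ℕ × Bool)

noncomputable def fresh (Q : Finset ℕ) : ℕ := Q.sup id + 1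

theorem fresh_not_mem (Q : Finset ℕ) : fresh Q ∉ Q := by
  intro h
  have := Finset.le_sup (f := id) h
  unfold fresh at this
  simp only [id] at this
  omega

/-- the next place, made non-rescanning and total; `v` lists the bits seen, newest first -/
noncomputable def next (g : Rule) (v : List Bool) (Q : Finset ℕ) : ℕ × Bool :=
  match g v.reverse with
  | some (n, s) => if n ∈ Q then (fresh Q, false) else (n, s)
  | none => (fresh Q, false)

theorem next_not_mem (g : Rule) (v : List Bool) (Q : Finset ℕ) : (next g v Q).1 ∉ Q := by
  unfold next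
  split
  · split_ifs with h
    · exact fresh_not_mem Q
    · exact h
  · exact fresh_not_mem Q

theorem next_of_some {g : Rule} {v : List Bool} {Q : Finset ℕ} {n : ℕ} {s : Bool}
    (h : g v.reverse = some (n, s)) (hn : n ∉ Q) : next g v Q = (n, s) := by
  unfold next
  rw [h]
  simp [hn]

/-- the places read along `v` -/
noncomputable def st (g : Rule) : List Bool → Finset ℕ
  | [] => ∅
  | (_ :: v) => insert (next g v (st g v)).1 (st g v)

noncomputable def pl (g : Rule) (v : List Bool) : ℕ := (next g v (st g v)).1
noncomputable def se (g : Rule) (v : List Bool) : Bool := (next g v (st g v)).2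

theorem pl_not_mem (g : Rule) (v : List Bool) : pl g v ∉ st g v := next_not_mem g v _

theorem st_cons (g : Rule) (b : Bool) (v : List Bool) :
    st g (b :: v) = insert (pl g v) (st g v) := rfl

/-- the bits read in `A`, newest first -/
noncomputable def hist (g : Rule) (A : ℕ → Bool) : ℕ → List Bool
  | 0 => []
  | (n + 1) => A (pl g (hist g A n)) :: hist g A n

theorem hist_length (g : Rule) (A : ℕ → Bool) (n : ℕ) : (hist g A n).length = n := by
  induction n with
  | zero => rfl
  | succ n ih => simp [hist, ih]

/-- the values read -/
noncomputable def asg (g : Rule) : List Bool → ℕ → Bool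
  | [] => fun _ => false
  | (b :: v) => Function.update (asg g v) (pl g v) b

theorem hist_set (g : Rule) (v : List Bool) :
    {A : ℕ → Bool | hist g A v.length = v} =
      Set.pi (st g v : Set ℕ) (fun i => ({asg g v i} : Set Bool)) := by
  induction v with
  | nil => ext A; simp [hist, st]
  | cons b v ih =>
    ext A
    have h1 : (A ∈ {A : ℕ → Bool | hist g A v.length = v}) ↔
      A ∈ Set.pi (st g v : Set ℕ) (fun i => ({asg g v i} : Set Bool)) := by rw [ih]
    simp only [Set.mem_ofPred_eq, Set.mem_pi, Finset.mem_coe, Set.mem_singleton_iff] at h1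
    simp only [Set.mem_ofPred_eq, List.length_cons, hist, List.cons.injEq, Set.mem_pi,
      Finset.mem_coe, Set.mem_singleton_iff, st_cons, Finset.mem_insert]
    constructor
    · rintro ⟨h2, h3⟩ i hi
      rw [h3] at h2
      rcases hi with rfl | hi
      · simp [asg, h2]
      · have hne : i ≠ pl g v := fun e => pl_not_mem g v (e ▸ hi)
        simp only [asg, Function.update_of_ne hne]
        exact h1.1 h3 i hi
    · intro h2
      have h3 : hist g A v.length = v := h1.2 fun i hi => by
        have hne : i ≠ pl g v := fun e => pl_not_mem g v (e ▸ hi)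
        have := h2 i (Or.inr hi)
        simpa only [asg, Function.update_of_ne hne] using this
      refine ⟨?_, h3⟩
      rw [h3]
      have := h2 (pl g v) (Or.inl rfl)
      simpa [asg] using this

section measure

variable (m : ℕ → Measure Bool) [∀ n, IsProbabilityMeasure (m n)]

/-- the law of the sequence -/
noncomputable abbrev law : Measure (ℕ → Bool) := Measure.infinitePi m

theorem law_hist (g : Rule) (v : List Bool) :
    law m {A : ℕ → Bool | hist g A v.length = v} = ∏ i ∈ st g v, m i {asg g v i} := by
  rw [hist_set, law, Measure.infinitePi_pi]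
  intro i _
  exact measurableSet_singleton _

theorem law_cons (g : Rule) (b : Bool) (v : List Bool) :
    law m {A : ℕ → Bool | hist g A (b :: v).length = b :: v} =
      m (pl g v) {b} * law m {A : ℕ → Bool | hist g A v.length = v} := by
  rw [law_hist, law_hist, st_cons, Finset.prod_insert (pl_not_mem g v)]
  congr 1
  · simp [asg]
  · refine Finset.prod_congr rfl fun i hi => ?_
    have hne : i ≠ pl g v := fun e => pl_not_mem g v (e ▸ hi)
    simp only [asg, Function.update_of_ne hne]

/-- one-sided supermartingales -/
def IsSup (g : Rule) (V : List Bool → ℝ≥0∞) : Prop :=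
  ∀ v, m (pl g v) {true} * V (true :: v) + m (pl g v) {false} * V (false :: v) ≤ V v

theorem ville_aux (g : Rule) (V : List Bool → ℝ≥0∞) (hV : IsSup m g V) (K : ℝ≥0∞) (n : ℕ) :
    ∀ v : List Bool, law m {A : ℕ → Bool | hist g A v.length = v ∧
      ∃ k ≤ n, K ≤ V (hist g A (v.length + k))} * K ≤
        V v * law m {A : ℕ → Bool | hist g A v.length = v} := by
  induction n with
  | zero =>
    intro v
    by_cases h : K ≤ V v
    · calc _ ≤ law m {A : ℕ → Bool | hist g A v.length = v} * K := by
            gcongr
            intro hA
            exact hA.1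
        _ ≤ _ := by rw [mul_comm]; gcongr
    · have : {A : ℕ → Bool | hist g A v.length = v ∧
          ∃ k ≤ 0, K ≤ V (hist g A (v.length + k))} = ∅ := by
        ext A
        simp only [Set.mem_ofPred_eq, Set.mem_empty_iff_false, iff_false]
        rintro ⟨h1, k, hk, h2⟩
        have : k = 0 := by omega
        subst this
        rw [Nat.add_zero, h1] at h2
        exact h h2
      rw [this]
      simp
  | succ n ih =>
    intro v
    by_cases h : K ≤ V v
    · calc _ ≤ law m {A : ℕ → Bool | hist g A v.length = v} * K := by
            gcongr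
            intro hA
            exact hA.1
        _ ≤ _ := by rw [mul_comm]; gcongr
    · have hsub : {A : ℕ → Bool | hist g A v.length = v ∧
          ∃ k ≤ n + 1, K ≤ V (hist g A (v.length + k))} ⊆
          {A : ℕ → Bool | hist g A (true :: v).length = true :: v ∧
            ∃ k ≤ n, K ≤ V (hist g A ((true :: v).length + k))} ∪
          {A : ℕ → Bool | hist g A (false :: v).length = false :: v ∧
            ∃ k ≤ n, K ≤ V (hist g A ((false :: v).length + k))} := by
        rintro A ⟨h1, k, hk, h2⟩
        rcases k with _ | k
        · rw [Nat.add_zero, h1] at h2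
          exact absurd h2 h
        · have h3 : hist g A (v.length + 1) = A (pl g v) :: v := by
            rw [hist, h1]
          have h4 : v.length + (k + 1) = (v.length + 1) + k := by omega
          rw [h4] at h2
          cases hb : A (pl g v) with
          | true =>
            left
            exact ⟨by rw [List.length_cons, h3, hb], k, by omega, h2⟩
          | false =>
            right
            exact ⟨by rw [List.length_cons, h3, hb], k, by omega, h2⟩
      calc _ ≤ (law m {A : ℕ → Bool | hist g A (true :: v).length = true :: v ∧
            ∃ k ≤ n, K ≤ V (hist g A ((true :: v).length + k))} +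
          law m {A : ℕ → Bool | hist g A (false :: v).length = false :: v ∧
            ∃ k ≤ n, K ≤ V (hist g A ((false :: v).length + k))}) * K := by
            gcongr
            exact (measure_mono hsub).trans (measure_union_le _ _)
        _ = law m {A : ℕ → Bool | hist g A (true :: v).length = true :: v ∧
            ∃ k ≤ n, K ≤ V (hist g A ((true :: v).length + k))} * K +
          law m {A : ℕ → Bool | hist g A (false :: v).length = false :: v ∧
            ∃ k ≤ n, K ≤ V (hist g A ((false :: v).length + k))} * K := add_mul _ _ _
        _ ≤ V (true :: v) * law m {A : ℕ → Bool | hist g A (true :: v).length = true :: v} +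
            V (false :: v) * law m {A : ℕ → Bool | hist g A (false :: v).length = false :: v} :=
            add_le_add (ih _) (ih _)
        _ = (m (pl g v) {true} * V (true :: v) + m (pl g v) {false} * V (false :: v)) *
            law m {A : ℕ → Bool | hist g A v.length = v} := by
            rw [law_cons, law_cons]; ring
        _ ≤ _ := by gcongr; exact hV v

/-- Ville's inequality. -/
theorem ville (g : Rule) (V : List Bool → ℝ≥0∞) (hV : IsSup m g V) (K : ℝ≥0∞) :
    law m {A : ℕ → Bool | ∃ k, K ≤ V (hist g A k)} * K ≤ V [] := by
  have h1 : ∀ n : ℕ, law m {A : ℕ → Bool | ∃ k ≤ n, K ≤ V (hist g A k)} * K ≤ V [] := by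
    intro n
    have h := ville_aux m g V hV K n []
    simp only [List.length_nil, hist, true_and, Nat.zero_add, Set.ofPred_true, measure_univ,
      mul_one] at h
    exact h
  have h2 : {A : ℕ → Bool | ∃ k, K ≤ V (hist g A k)} =
      ⋃ n : ℕ, {A : ℕ → Bool | ∃ k ≤ n, K ≤ V (hist g A k)} := by
    ext A
    simp only [Set.mem_ofPred_eq, Set.mem_iUnion]
    exact ⟨fun ⟨k, hk⟩ => ⟨k, k, le_rfl, hk⟩, fun ⟨_, k, _, hk⟩ => ⟨k, hk⟩⟩
  have h3 : Monotone fun n : ℕ => {A : ℕ → Bool | ∃ k ≤ n, K ≤ V (hist g A k)} := by
    rintro a b hab A ⟨k, hk, h⟩
    exact ⟨k, hk.trans hab, h⟩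
  rw [h2, h3.measure_iUnion, ENNReal.iSup_mul]
  exact iSup_le h1

theorem ae_bounded (g : Rule) (V : List Bool → ℝ≥0∞) (hV : IsSup m g V) (h1 : V [] ≤ 1) :
    ∀ᵐ A ∂(law m), ∃ K : ℕ, ∀ k, V (hist g A k) < K := by
  have h : law m {A : ℕ → Bool | ∀ K : ℕ, ∃ k, (K : ℝ≥0∞) ≤ V (hist g A k)} = 0 := by
    by_contra hne
    have hpos : 0 < law m {A : ℕ → Bool | ∀ K : ℕ, ∃ k, (K : ℝ≥0∞) ≤ V (hist g A k)} :=
      pos_iff_ne_zero.2 hne
    have hle : ∀ K : ℕ, law m {A : ℕ → Bool | ∀ K : ℕ, ∃ k, (K : ℝ≥0∞) ≤ V (hist g A k)} * K ≤
        1 := by
      intro K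
      refine le_trans ?_ ((ville m g V hV K).trans h1)
      gcongr
      intro hA
      exact hA K
    obtain ⟨n, hn⟩ := ENNReal.exists_nat_mul_gt hne (b := 1) (by simp)
    have := hle n
    rw [mul_comm] at this
    exact absurd hn (not_lt.2 this)
  rw [ae_iff]
  convert h using 3
  push Not
  rfl

end measure

end Run7.h713.KL
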