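import Pool.Agent.Run7.h713.KL.Spec

/-!
# The majority in a block is the bit at its head, almost surely for almost all blocks
-/

namespace Run7.h713.KL

open MeasureTheory Filter Topology
open scoped ENNReal

/-- the constant -/
noncomputable def cc (k : ℕ) : ℝ := (1 - Real.exp (-(ep k / 2))) * (1 / 2 + ep k)

noncomputable def incB (k : ℕ) (v : List Bool) (b : Bool) : ℝ :=
  if pw k < v.length ∧ v.length < pw (k + 1) then
    -(ep k / 2) * ind (b == v.reverse.getD (pw k) false) + cc k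
  else 0

theorem incB_ok (k : ℕ) (v : List Bool) :
    p0.q (pl g0 v) * Real.exp (incB k v true) +
      (1 - p0.q (pl g0 v)) * Real.exp (incB k v false) ≤ 1 := by
  unfold incB
  split_ifs with h
  · have hlev : lev v.length = k := lev_eq h.1.le h.2
    have hq : p0.q (pl g0 v) = bias v.reverse := by
      rw [pl_g0]; exact qf_encode _
    rw [hq]
    have hb : bias v.reverse = if v.reverse.getD (pw k) false = true then 1 / 2 + ep k
        else 1 / 2 - ep k := by
      unfold bias
      rw [List.length_reverse, hlev, if_pos h.1]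
    rw [hb]
    have key : (1 / 2 + ep k) * Real.exp (-(ep k / 2) * 1 + cc k) +
        (1 / 2 - ep k) * Real.exp (-(ep k / 2) * 0 + cc k) ≤ 1 := by
      have e1 : (1 / 2 + ep k) * Real.exp (-(ep k / 2) * 1 + cc k) +
        (1 / 2 - ep k) * Real.exp (-(ep k / 2) * 0 + cc k) =
          (-(cc k) + 1) * Real.exp (cc k) := by
        rw [Real.exp_add, Real.exp_add]
        simp only [mul_one, mul_zero, Real.exp_zero, one_mul]
        unfold cc
        ring
      rw [e1]
      calc (-(cc k) + 1) * Real.exp (cc k) ≤ Real.exp (-(cc k)) * Real.exp (cc k) :=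
            mul_le_mul_of_nonneg_right (Real.add_one_le_exp _) (Real.exp_pos _).le
        _ = 1 := by rw [← Real.exp_add]; simp
    cases hh : v.reverse.getD (pw k) false with
    | true =>
      simp only [if_true, ind, beq_self_eq_true]
      have e2 : (false == true) = false := rfl
      rw [e2]
      simp only [Bool.false_eq_true, if_false]
      have e3 : (1 : ℝ) - (1 / 2 + ep k) = 1 / 2 - ep k := by ring
      rw [e3]
      exact key
    | false =>
      have e2 : (true == false) = false := rfl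
      simp only [ind, beq_self_eq_true, e2, if_true, Bool.false_eq_true, if_false]
      have e3 : (1 : ℝ) - (1 / 2 - ep k) = 1 / 2 + ep k := by ring
      rw [e3]
      linarith [key]
  · simp

theorem lsum_hist (inc : List Bool → Bool → ℝ) (A : ℕ → Bool) (n : ℕ) :
    lsum inc (hist g0 A n) = ∑ i ∈ Finset.range n, inc (hist g0 A i) (B A i) := by
  induction n with
  | zero => simp [hist, lsum]
  | succ n ih => rw [hist_succ, lsum, ih, Finset.sum_range_succ]

/-- the body of the block `k` -/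
def body (k : ℕ) : Finset ℕ := Finset.Ioo (pw k) (pw (k + 1))

theorem getD_hist (A : ℕ → Bool) {i j : ℕ} (h : j < i) :
    (hist g0 A i).reverse.getD j false = B A j := by
  rw [hist_ofFn]
  rw [List.getD_eq_getElem _ _ (by simpa using h)]
  simp

theorem lsum_block (A : ℕ → Bool) (k : ℕ) :
    lsum (incB k) (hist g0 A (pw (k + 1))) =
      -(ep k / 2) * (((body k).filter fun i => B A i = B A (pw k)).card : ℝ) +
        cc k * ((body k).card : ℝ) := by
  rw [lsum_hist]
  have h1 : ∀ i ∈ Finset.range (pw (k + 1)), incB k (hist g0 A i) (B A i) =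
      if i ∈ body k then -(ep k / 2) * ind (B A i == B A (pw k)) + cc k else 0 := by
    intro i hi
    unfold incB
    rw [hist_length]
    by_cases h : pw k < i ∧ i < pw (k + 1)
    · have hb : i ∈ body k := Finset.mem_Ioo.2 h
      rw [if_pos h, if_pos hb, getD_hist A h.1]
    · have hb : i ∉ body k := fun hb => h (Finset.mem_Ioo.1 hb)
      rw [if_neg h, if_neg hb]
  rw [Finset.sum_congr rfl h1, ← Finset.sum_filter]
  have h2 : (Finset.range (pw (k + 1))).filter (fun i => i ∈ body k) = body k := by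
    ext i
    simp only [Finset.mem_filter, Finset.mem_range, body, Finset.mem_Ioo]
    constructor
    · rintro ⟨-, h⟩; exact h
    · intro h; exact ⟨h.2, h⟩
  rw [h2, Finset.sum_add_distrib, ← Finset.mul_sum]
  congr 1
  · congr 1
    rw [← Finset.sum_boole]
    refine Finset.sum_congr rfl fun i _ => ?_
    unfold ind
    by_cases h : B A i = B A (pw k) <;> simp [h]
  · rw [Finset.sum_const, nsmul_eq_mul, mul_comm]

theorem card_body (k : ℕ) : (body k).card = pw (k + 1) - pw k - 1 := by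
  unfold body
  rw [Nat.card_Ioo]

theorem card_body_ge (k : ℕ) : 4 * k ^ 3 ≤ (body k).card := by
  rw [card_body]
  unfold pw
  have : (k + 1) * (k + 1) * ((k + 1) * (k + 1)) = k * k * (k * k) + 1 + (4 * k ^ 3 + 6 * k ^ 2 +
    4 * k) := by ring
  omega

/-- the majority in the block fails -/
def Bad (A : ℕ → Bool) (k : ℕ) : Prop :=
  2 * ((body k).filter fun i => B A i = B A (pw k)).card ≤ (body k).card

theorem bad_large {A : ℕ → Bool} {k : ℕ} (hk : 2 ≤ k) (h : Bad A k) :
    (k : ℝ) / 4 ≤ lsum (incB k) (hist g0 A (pw (k + 1))) := by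
  rw [lsum_block]
  set Y : ℝ := (((body k).filter fun i => B A i = B A (pw k)).card : ℝ)
  set M : ℝ := ((body k).card : ℝ)
  have hY : 2 * Y ≤ M := by
    have : ((2 * ((body k).filter fun i => B A i = B A (pw k)).card : ℕ) : ℝ) ≤
      ((body k).card : ℝ) := by exact_mod_cast h
    push_cast at this
    exact this
  have hM : 4 * (k : ℝ) ^ 3 ≤ M := by
    have := card_body_ge k
    have h2 : ((4 * k ^ 3 : ℕ) : ℝ) ≤ ((body k).card : ℝ) := by exact_mod_cast this
    push_cast at h2
    exact h2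
  have he := ep_pos k
  have he2 := ep_le k
  -- the constant
  have hc : ep k / 4 + ep k ^ 2 / 4 ≤ cc k := by
    unfold cc
    have h1 := (abs_le.1 (exp_bd (θ := -(ep k / 2)) (by
      rw [abs_neg, abs_of_pos (by positivity)]; linarith))).2
    have h2 : ep k / 2 - ep k ^ 2 / 4 ≤ 1 - Real.exp (-(ep k / 2)) := by
      have e : (-(ep k / 2)) ^ 2 = ep k ^ 2 / 4 := by ring
      rw [e] at h1
      linarith
    have h3 : (ep k / 2 - ep k ^ 2 / 4) * (1 / 2 + ep k) ≤
      (1 - Real.exp (-(ep k / 2))) * (1 / 2 + ep k) :=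
      mul_le_mul_of_nonneg_right h2 (by positivity)
    have h4 : ep k / 4 + ep k ^ 2 / 4 ≤ (ep k / 2 - ep k ^ 2 / 4) * (1 / 2 + ep k) := by
      have : (ep k / 2 - ep k ^ 2 / 4) * (1 / 2 + ep k) = ep k / 4 + ep k ^ 2 / 4 +
        ep k ^ 2 * (1 / 8 - ep k / 4) := by ring
      rw [this]
      have : 0 ≤ ep k ^ 2 * (1 / 8 - ep k / 4) := mul_nonneg (by positivity) (by linarith)
      linarith
    linarith
  have hM0 : 0 ≤ M := le_trans (by positivity) hM
  have h5 : (ep k / 4 + ep k ^ 2 / 4) * M ≤ cc k * M := mul_le_mul_of_nonneg_right hc hM0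
  have h6 : -(ep k / 2) * (M / 2) ≤ -(ep k / 2) * Y := by
    have : ep k / 2 * Y ≤ ep k / 2 * (M / 2) :=
      mul_le_mul_of_nonneg_left (by linarith) (by positivity)
    linarith
  have h7 : (k : ℝ) / 4 ≤ ep k ^ 2 / 4 * M := by
    have hk2 : (2 : ℝ) ≤ k := by exact_mod_cast hk
    have h8 : ep k ^ 2 = 1 / ((k : ℝ) + 2) ^ 2 := by unfold ep; rw [div_pow, one_pow]
    rw [h8]
    have h9 : (k : ℝ) * ((k : ℝ) + 2) ^ 2 ≤ M := by
      refine le_trans ?_ hM
      have : ((k : ℝ) + 2) ^ 2 ≤ 4 * (k : ℝ) ^ 2 := by nlinarith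
      calc (k : ℝ) * ((k : ℝ) + 2) ^ 2 ≤ (k : ℝ) * (4 * (k : ℝ) ^ 2) :=
            mul_le_mul_of_nonneg_left this (by positivity)
        _ = 4 * (k : ℝ) ^ 3 := by ring
    rw [div_le_iff₀ (by norm_num : (0:ℝ) < 4)]
    have h10 : 1 / ((k : ℝ) + 2) ^ 2 / 4 * M * 4 = M / ((k : ℝ) + 2) ^ 2 := by ring
    rw [h10, le_div_iff₀ (by positivity)]
    exact h9
  nlinarith [h5, h6, h7]

theorem ae_not_bad : ∀ᵐ A ∂(law p0.m), ∀ᶠ k in atTop, ¬ Bad A k := by
  set s : ℕ → Set (ℕ → Bool) := fun k => {A | 2 ≤ k ∧ Bad A k} with hs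
  have hm : ∀ k, law p0.m (s k) ≤ ENNReal.ofReal (Real.exp (-(1 / 4 : ℝ)) ^ k) := by
    intro k
    have h1 := ville p0.m g0 _ (isSup_exp p0 g0 (incB k) (incB_ok k))
      (ENNReal.ofReal (Real.exp ((k : ℝ) / 4)))
    simp only [lsum, Real.exp_zero, ENNReal.ofReal_one] at h1
    have h2 : s k ⊆ {A : ℕ → Bool | ∃ n, ENNReal.ofReal (Real.exp ((k : ℝ) / 4)) ≤
        ENNReal.ofReal (Real.exp (lsum (incB k) (hist g0 A n)))} := by
      rintro A ⟨hk, hA⟩
      exact ⟨pw (k + 1), ENNReal.ofReal_le_ofReal (Real.exp_le_exp.2 (bad_large hk hA))⟩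
    have h3 : law p0.m (s k) * ENNReal.ofReal (Real.exp ((k : ℝ) / 4)) ≤ 1 :=
      le_trans (by gcongr) h1
    have h4 : ENNReal.ofReal (Real.exp ((k : ℝ) / 4)) *
        ENNReal.ofReal (Real.exp (-(1 / 4 : ℝ)) ^ k) = 1 := by
      rw [← ENNReal.ofReal_mul (Real.exp_pos _).le, ← Real.exp_nat_mul, ← Real.exp_add]
      rw [show (k : ℝ) / 4 + (k : ℝ) * -(1 / 4 : ℝ) = 0 by ring, Real.exp_zero,
        ENNReal.ofReal_one]
    calc law p0.m (s k) = law p0.m (s k) * (ENNReal.ofReal (Real.exp ((k : ℝ) / 4)) *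
          ENNReal.ofReal (Real.exp (-(1 / 4 : ℝ)) ^ k)) := by rw [h4, mul_one]
      _ = law p0.m (s k) * ENNReal.ofReal (Real.exp ((k : ℝ) / 4)) *
          ENNReal.ofReal (Real.exp (-(1 / 4 : ℝ)) ^ k) := by ring
      _ ≤ 1 * ENNReal.ofReal (Real.exp (-(1 / 4 : ℝ)) ^ k) := by gcongr
      _ = _ := one_mul _
  have hsum : ∑' k, law p0.m (s k) ≠ ∞ := by
    refine ne_top_of_le_ne_top ?_ (ENNReal.tsum_le_tsum hm)
    refine Summable.tsum_ofReal_ne_top (summable_geometric_of_lt_one (Real.exp_pos _).le ?_)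
    rw [Real.exp_lt_one_iff]
    norm_num
  filter_upwards [ae_eventually_notMem hsum] with A hA
  filter_upwards [hA, eventually_ge_atTop 2] with k hk hk2 hbad
  exact hk ⟨hk2, hbad⟩

end Run7.h713.KL
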