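import Pool.Agent.Run7.h713.KL.Lln

/-!
# Almost every sequence is Kolmogorov-Loveland stochastic
-/

namespace Run7.h713.KL

open MeasureTheory Filter Topology

/-- Kolmogorov-Loveland stochastic sequences, as in the frozen statement -/
def KLst (X : ℕ → Bool) : Prop :=
  ∀ f : List Bool →. ℕ × Bool, Partrec f →
    ∀ pos : ℕ → ℕ, ∀ sel : ℕ → Bool,
      (∀ k : ℕ, f (List.ofFn (fun i : Fin k => X (pos i))) = Part.some (pos k, sel k)) →
      Function.Injective pos →
      Set.Infinite {k : ℕ | sel k = true} → HalfFreq X pos sel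

/-- the rule with code `c` -/
noncomputable def ruleOf (c : Nat.Partrec.Code) : Rule := fun w =>
  haveI := Classical.propDecidable (c.eval (Encodable.encode w)).Dom
  ((c.eval (Encodable.encode w)).toOption).bind (fun n => (Encodable.decode n : Option (ℕ × Bool)))

theorem exists_code {f : List Bool →. ℕ × Bool} (hf : Partrec f) : ∃ c : Nat.Partrec.Code,
    ∀ w x, f w = Part.some x → ruleOf c w = some x := by
  obtain ⟨c, hc⟩ := Nat.Partrec.Code.exists_code.1 hf
  refine ⟨c, fun w x hx => ?_⟩
  have h1 : c.eval (Encodable.encode w) = Part.some (Encodable.encode x) := by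
    rw [hc]
    simp [hx]
  unfold ruleOf
  have h2 : ∀ (o : Part ℕ) (_ : Decidable o.Dom), o = Part.some (Encodable.encode x) →
      (o.toOption).bind (fun n => (Encodable.decode n : Option (ℕ × Bool))) = some x := by
    intro o _ ho
    subst ho
    simp only [Part.some_toOption, Option.bind_some, Encodable.encodek]
  exact h2 _ _ h1

theorem ae_klst {p : Prob} (hq : Tendsto p.q atTop (𝓝 (1 / 2))) :
    ∀ᵐ A ∂(law p.m), KLst A := by
  have h : ∀ᵐ A ∂(law p.m), ∀ c : Nat.Partrec.Code, Good p (ruleOf c) A :=
    ae_all_iff.2 fun c => ae_good p (ruleOf c)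
  filter_upwards [h] with A hA f hf pos sel hrun hinj hinf
  obtain ⟨c, hc⟩ := exists_code hf
  exact lln hq (hA c) ⟨fun k => hc _ _ (hrun k), hinj⟩ hinf

end Run7.h713.KL
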