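import Pool.Agent.Run7.h713.KL.Block

/-!
# Kolmogorov-Loveland stochasticity is not closed under Kolmogorov-Loveland selection
-/

namespace Run7.h713.KL

open MeasureTheory Filter Topology

/-! ### Frequencies -/

theorem freq_exists {X : ℕ → Bool} {pos : ℕ → ℕ} {sel : ℕ → Bool} (h : HalfFreq X pos sel)
    (hinf : Set.Infinite {k : ℕ | sel k = true}) (b : Bool) (N : ℕ) :
    ∃ n ≥ N, sel n = true ∧ X (pos n) = b := by
  by_contra hne
  push Not at hne
  have hge : ∀ j, N ≤ j → X (pos (Nat.nth (fun k => sel k = true) j)) ≠ b := by
    intro j hj
    refine hne _ ?_ ?_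
    · exact hj.trans (Nat.le_nth fun hf => absurd hf hinf)
    · exact Nat.nth_mem_of_infinite hinf j
  have hN : Tendsto (fun m : ℕ => (N : ℝ) / (m : ℝ)) atTop (𝓝 0) :=
    tendsto_const_div_atTop_nhds_zero_nat _
  cases b with
  | true =>
    have hle : ∀ m : ℕ, (cnt X pos sel m : ℝ) / (m : ℝ) ≤ (N : ℝ) / (m : ℝ) := by
      intro m
      have : cnt X pos sel m ≤ N := by
        unfold cnt
        calc _ ≤ (Finset.range N).card := Finset.card_le_card fun j hj => by
              rw [Finset.mem_filter] at hj
              rw [Finset.mem_range]
              by_contra hc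
              exact hge j (not_lt.1 hc) hj.2
          _ = N := Finset.card_range N
      have h2 : (cnt X pos sel m : ℝ) ≤ N := by exact_mod_cast this
      exact div_le_div_of_nonneg_right h2 (Nat.cast_nonneg m)
    have := le_of_tendsto_of_tendsto' h hN hle
    norm_num at this
  | false =>
    have hle : ∀ m : ℕ, 1 ≤ m → 1 - (N : ℝ) / (m : ℝ) ≤ (cnt X pos sel m : ℝ) / (m : ℝ) := by
      intro m hm
      have h1 : m ≤ cnt X pos sel m + N := by
        unfold cnt
        have h2 := Finset.card_filter_add_card_filter_not (s := Finset.range m)
          (fun j => X (pos (Nat.nth (fun k => sel k = true) j)) = true)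
        rw [Finset.card_range] at h2
        have h3 : ((Finset.range m).filter
            (fun j => ¬ X (pos (Nat.nth (fun k => sel k = true) j)) = true)).card ≤ N := by
          calc _ ≤ (Finset.range N).card := Finset.card_le_card fun j hj => by
                rw [Finset.mem_filter] at hj
                rw [Finset.mem_range]
                by_contra hc
                have := hge j (not_lt.1 hc)
                simp at this
                exact hj.2 this
            _ = N := Finset.card_range N
        omega
      have h2 : (m : ℝ) ≤ cnt X pos sel m + N := by exact_mod_cast h1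
      have hm0 : (0 : ℝ) < m := by exact_mod_cast hm
      rw [sub_le_iff_le_add, ← add_div, le_div_iff₀ hm0]
      linarith
    have h1 : Tendsto (fun m : ℕ => 1 - (N : ℝ) / (m : ℝ)) atTop (𝓝 (1 - 0)) :=
      tendsto_const_nhds.sub hN
    have := le_of_tendsto_of_tendsto h1 h (by
      filter_upwards [eventually_ge_atTop 1] with m hm using hle m hm)
    norm_num at this

/-! ### The rule on the path -/

/-- read the body of the block, then its head, and select the head if the majority is true -/
def fB (w : List Bool) : ℕ × Bool :=
  if w.length + 1 < pw (lev w.length + 1) then (w.length + 1, false)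
  else (pw (lev w.length), decide ((w.drop (pw (lev w.length))).length <
    2 * ((w.drop (pw (lev w.length))).filter fun b => b = true).length))

theorem prim_pw : Primrec pw := by
  have h : Primrec fun k : ℕ => k * k := Primrec.nat_mul.comp Primrec.id Primrec.id
  exact Primrec.nat_mul.comp h h

theorem prim_lev : Primrec lev := Primrec.nat_sqrt.comp Primrec.nat_sqrt

theorem prim_fB : Primrec fB := by
  have hl : Primrec fun w : List Bool => w.length := Primrec.list_length
  have hlev : Primrec fun w : List Bool => lev w.length := prim_lev.comp hl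
  have hpw : Primrec fun w : List Bool => pw (lev w.length) := prim_pw.comp hlev
  have hpw1 : Primrec fun w : List Bool => pw (lev w.length + 1) :=
    prim_pw.comp (Primrec.succ.comp hlev)
  have hdrop : Primrec fun w : List Bool => w.drop (pw (lev w.length)) :=
    Primrec.list_drop.comp hpw Primrec.id
  have hfil : Primrec fun w : List Bool => (w.drop (pw (lev w.length))).filter fun b => b = true :=
    (Primrec.listFilter (p := fun b : Bool => b = true)
      (Primrec.eq.comp Primrec.id (Primrec.const true))).comp hdrop
  have hmul : Primrec fun w : List Bool =>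
      2 * ((w.drop (pw (lev w.length))).filter fun b => b = true).length :=
    Primrec.nat_mul.comp (Primrec.const 2) (Primrec.list_length.comp hfil)
  have hdec : Primrec fun w : List Bool => decide ((w.drop (pw (lev w.length))).length <
      2 * ((w.drop (pw (lev w.length))).filter fun b => b = true).length) :=
    (Primrec.nat_lt.comp (Primrec.list_length.comp hdrop) hmul).decide
  exact Primrec.ite (Primrec.nat_lt.comp (Primrec.succ.comp hl) hpw1)
    (Primrec.pair (Primrec.succ.comp hl) (Primrec.const false)) (Primrec.pair hpw hdec)

def posB (t : ℕ) : ℕ := if t + 1 < pw (lev t + 1) then t + 1 else pw (lev t)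

def selB (X : ℕ → Bool) (t : ℕ) : Bool := (fB (List.ofFn fun i : Fin t => X (posB i))).2

theorem fB_run (X : ℕ → Bool) (t : ℕ) :
    fB (List.ofFn fun i : Fin t => X (posB i)) = (posB t, selB X t) := by
  have h : (fB (List.ofFn fun i : Fin t => X (posB i))).1 = posB t := by
    unfold fB posB
    rw [List.length_ofFn]
    split_ifs <;> rfl
  exact Prod.ext h rfl

theorem lev_posB (t : ℕ) : lev (posB t) = lev t := by
  unfold posB
  split_ifs with h
  · exact lev_eq ((pw_lev_le t).trans (Nat.le_succ t)) h
  · exact lev_eq le_rfl (pw_lt (Nat.lt_succ_self _))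

theorem posB_inj : Function.Injective posB := by
  intro a b h
  have hl : lev a = lev b := by rw [← lev_posB a, ← lev_posB b, h]
  have ha := pw_lev_le a
  have hb := pw_lev_le b
  have ha2 := lt_pw_lev a
  have hb2 := lt_pw_lev b
  rw [hl] at ha ha2
  unfold posB at h
  rw [hl] at h
  split_ifs at h <;> omega

theorem filter_drop (F : ℕ → Bool) (a n : ℕ) :
    (((List.ofFn fun i : Fin n => F i).drop a).filter fun b => b = true).length =
      ((Finset.Ico a n).filter fun i => F i = true).card := by
  induction n with
  | zero => simp
  | succ n ih =>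
    rw [List.ofFn_succ']
    simp only [List.concat_eq_append, Fin.val_castSucc, Fin.val_last]
    by_cases h : a ≤ n
    · rw [List.drop_append_of_le_length (by simpa using h), List.filter_append,
        List.length_append, ih, ← Finset.insert_Ico_right_eq_Ico_add_one h, Finset.filter_insert]
      by_cases hF : F n = true
      · rw [if_pos hF, Finset.card_insert_of_notMem (by simp)]
        simp [hF]
      · rw [if_neg hF]
        simp [hF]
    · have h1 : Finset.Ico a (n + 1) = ∅ := Finset.Ico_eq_empty (by omega)
      rw [h1, List.drop_of_length_le (by simp; omega)]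
      simp

theorem selB_iff (X : ℕ → Bool) (k : ℕ) : selB X (pw (k + 1) - 1) = true ↔
    (body k).card < 2 * ((body k).filter fun i => X i = true).card := by
  have h1 : pw k < pw (k + 1) := pw_lt (Nat.lt_succ_self k)
  set t := pw (k + 1) - 1 with ht
  have hlev : lev t = k := lev_eq (by omega) (by omega)
  have h2 : selB X t = decide (((List.ofFn fun i : Fin t => X (posB i)).drop (pw k)).length <
      2 * (((List.ofFn fun i : Fin t => X (posB i)).drop (pw k)).filter
        fun b => b = true).length) := by
    unfold selB fB
    rw [List.length_ofFn, hlev, if_neg (by omega)]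
  rw [h2, decide_eq_true_iff]
  have h3 : ((List.ofFn fun i : Fin t => X (posB i)).drop (pw k)).length = (body k).card := by
    rw [List.length_drop, List.length_ofFn, card_body]
    omega
  have h4 : (((List.ofFn fun i : Fin t => X (posB i)).drop (pw k)).filter
      fun b => b = true).length = ((body k).filter fun i => X i = true).card := by
    rw [filter_drop (fun i => X (posB i))]
    refine Finset.card_bij (fun i _ => i + 1) ?_ ?_ ?_
    · intro i hi
      rw [Finset.mem_filter, Finset.mem_Ico] at hi
      have hp : posB i = i + 1 := by
        unfold posB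
        rw [lev_eq hi.1.1 (by omega), if_pos (by omega)]
      rw [Finset.mem_filter, body, Finset.mem_Ioo, ← hp]
      refine ⟨⟨by omega, by omega⟩, hi.2⟩
    · intro i _ j _ h; omega
    · intro j hj
      rw [Finset.mem_filter, body, Finset.mem_Ioo] at hj
      have hp : posB (j - 1) = j := by
        unfold posB
        rw [lev_eq (k := k) (by omega) (by omega), if_pos (by omega)]
        omega
      refine ⟨j - 1, ?_, by omega⟩
      rw [Finset.mem_filter, Finset.mem_Ico, hp]
      exact ⟨⟨by omega, by omega⟩, hj.2⟩
  rw [h3, h4]

theorem selB_head {A : ℕ → Bool} {k : ℕ} (h : ¬ Bad A k) :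
    selB (B A) (pw (k + 1) - 1) = B A (pw k) := by
  unfold Bad at h
  cases hX : B A (pw k) with
  | true =>
    rw [selB_iff]
    rw [hX] at h
    omega
  | false =>
    rw [hX] at h
    have h1 := selB_iff (B A) k
    have h2 := Finset.card_filter_add_card_filter_not (s := body k) (fun i => B A i = true)
    have h3 : (body k).filter (fun i => ¬ B A i = true) =
      (body k).filter (fun i => B A i = false) := by
      refine Finset.filter_congr fun i _ => ?_
      simp
    rw [h3] at h2
    by_contra hne
    have h4 : selB (B A) (pw (k + 1) - 1) = true := by simpa using hne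
    rw [h1] at h4
    omega

theorem selB_true {X : ℕ → Bool} {t : ℕ} (h : selB X t = true) : t = pw (lev t + 1) - 1 := by
  have h1 := lt_pw_lev t
  by_contra hne
  unfold selB fB at h
  rw [List.length_ofFn, if_pos (by omega)] at h
  simp at h

/-- The path is not stochastic. -/
theorem not_klst_path {A : ℕ → Bool} (h1 : Good p0
    (fun w => some (Encodable.encode w, decide (pw (lev w.length) = w.length))) A)
    (h2 : ∀ᶠ k in atTop, ¬ Bad A k) : ¬ KLst (B A) := by
  intro hkl
  obtain ⟨K, hK⟩ := eventually_atTop.1 h2
  -- infinitely many heads are true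
  have hheads : ∀ N, ∃ k ≥ N, B A (pw k) = true := by
    intro N
    set s : ℕ → Bool := fun n => decide (pw (lev n) = n) with hs
    have hinf : Set.Infinite {n : ℕ | s n = true} := by
      refine Set.infinite_of_not_bddAbove ?_
      rintro ⟨M, hM⟩
      have h3 : pw (M + 1) ∈ {n : ℕ | s n = true} := by
        change decide (pw (lev (pw (M + 1))) = pw (M + 1)) = true
        rw [lev_eq (k := M + 1) le_rfl (pw_lt (Nat.lt_succ_self _))]
        simp
      have h4 : pw (M + 1) ≤ M := hM h3
      have h5 : M + 1 ≤ pw (M + 1) := by
        unfold pw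
        have : 1 ≤ (M + 1) * (M + 1) := Nat.one_le_iff_ne_zero.2 (by positivity)
        nlinarith
      omega
    have hhalf := lln p0_tendsto h1 (run_path A s) hinf
    obtain ⟨n, hn, hn1, hn2⟩ := freq_exists hhalf hinf true (pw N)
    have hn3 : pw (lev n) = n := by simpa [hs] using hn1
    refine ⟨lev n, le_lev.2 hn, ?_⟩
    rw [hn3]
    exact hn2
  -- the selection of the second rule is infinite
  have hinf : Set.Infinite {t : ℕ | selB (B A) t = true} := by
    refine Set.infinite_of_not_bddAbove ?_
    rintro ⟨M, hM⟩
    obtain ⟨k, hk, hk2⟩ := hheads (max K (M + 1))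
    have h3 : pw (k + 1) - 1 ∈ {t : ℕ | selB (B A) t = true} := by
      change selB (B A) (pw (k + 1) - 1) = true
      rw [selB_head (hK k ((le_max_left _ _).trans hk)), hk2]
    have h4 : pw (k + 1) - 1 ≤ M := hM h3
    have h5 : k < pw (k + 1) := by
      unfold pw
      have : 1 ≤ (k + 1) * (k + 1) := Nat.one_le_iff_ne_zero.2 (by positivity)
      nlinarith
    have h6 : M + 1 ≤ k := (le_max_right _ _).trans hk
    omega
  have hhalf : HalfFreq (B A) posB (selB (B A)) :=
    hkl (fun w => Part.some (fB w)) prim_fB.to_comp posB (selB (B A))
      (fun k => by rw [fB_run]) posB_inj hinf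
  obtain ⟨t, ht, ht1, ht2⟩ := freq_exists hhalf hinf false (pw K)
  have h3 := selB_true ht1
  have h4 : K ≤ lev t := le_lev.2 ht
  have h5 := selB_head (hK _ h4)
  rw [← h3, ht1] at h5
  have h6 : posB t = pw (lev t) := by
    unfold posB
    rw [if_neg]
    have := lt_pw_lev t
    omega
  rw [h6, ← h5] at ht2
  exact absurd ht2 (by simp)

theorem nth_all (j : ℕ) : Nat.nth (fun k => (fun _ : ℕ => true) k = true) j = j := by
  have h : Nat.count (fun k => (fun _ : ℕ => true) k = true) j = j := by
    induction j with
    | zero => simp
    | succ j ih => rw [Nat.count_succ, ih]; simp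
  conv_lhs => rw [← h]
  exact Nat.nth_count rfl

theorem exists_example : ∃ A : ℕ → Bool, KLst A ∧ ¬ KLst (B A) := by
  have h := (ae_klst p0_tendsto).and ((ae_good p0
    (fun w => some (Encodable.encode w, decide (pw (lev w.length) = w.length)))).and ae_not_bad)
  obtain ⟨A, h1, h2, h3⟩ := h.exists
  exact ⟨A, h1, not_klst_path h2 h3⟩

theorem not_closed :
    ¬ (∀ A : ℕ → Bool, KLst A → ∀ f : List Bool →. ℕ × Bool, Partrec f →
      ∀ pos : ℕ → ℕ, ∀ sel : ℕ → Bool,
        (∀ k : ℕ, f (List.ofFn (fun i : Fin k => A (pos i))) = Part.some (pos k, sel k)) →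
        Function.Injective pos →
        Set.Infinite {k : ℕ | sel k = true} →
        KLst (fun j : ℕ => A (pos (Nat.nth (fun k => sel k = true) j)))) := by
  intro H
  obtain ⟨A, h1, h2⟩ := exists_example
  have hprim : Primrec fun w : List Bool => ((Encodable.encode w, true) : ℕ × Bool) :=
    Primrec.pair Primrec.encode (Primrec.const true)
  have h3 := H A h1 (fun w => Part.some (Encodable.encode w, true)) hprim.to_comp (pos0 A)
    (fun _ => true) (fun k => by
      have h4 : List.ofFn (fun i : Fin k => A (pos0 A i)) = (hist g0 A k).reverse := by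
        rw [hist_ofFn]; rfl
      rw [h4]
      rfl) (pos0_inj A) (by
      have : {k : ℕ | (fun _ : ℕ => true) k = true} = Set.univ := by ext; simp
      rw [this]
      exact Set.infinite_univ)
  apply h2
  have h5 : (fun j : ℕ => A (pos0 A (Nat.nth (fun k => (fun _ : ℕ => true) k = true) j))) =
      B A := by
    funext j
    rw [nth_all]
    rfl
  rw [← h5]
  exact h3

end Run7.h713.KL
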