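import Pool.Agent.Run7.h713.KL.Base

/-!
# The law of large numbers along adaptive selections

The bit at the place `n` is true with probability `q n`, and `q n → 1/2`.
-/

namespace Run7.h713.KL

open MeasureTheory Filter Topology
open scoped ENNReal

/-- the law of one bit, true with probability `q` -/
noncomputable def bit (q : ℝ) : Measure Bool :=
  ENNReal.ofReal q • Measure.dirac true + ENNReal.ofReal (1 - q) • Measure.dirac false

theorem bit_true {q : ℝ} : bit q {true} = ENNReal.ofReal q := by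
  simp [bit]

theorem bit_false {q : ℝ} : bit q {false} = ENNReal.ofReal (1 - q) := by
  simp [bit]

theorem bit_prob {q : ℝ} (h0 : 0 ≤ q) (h1 : q ≤ 1) : IsProbabilityMeasure (bit q) := by
  constructor
  simp only [bit, Measure.coe_add, Measure.coe_smul, Pi.add_apply, Pi.smul_apply, measure_univ,
    smul_eq_mul, mul_one]
  rw [← ENNReal.ofReal_add h0 (by linarith)]
  simp

/-- A family of probabilities. -/
structure Prob where
  q : ℕ → ℝ
  nonneg : ∀ n, 0 ≤ q n
  le_one : ∀ n, q n ≤ 1

noncomputable def Prob.m (p : Prob) : ℕ → Measure Bool := fun n => bit (p.q n)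

instance (p : Prob) (n : ℕ) : IsProbabilityMeasure (p.m n) := bit_prob (p.nonneg n) (p.le_one n)

/-- sum of increments along a history -/
noncomputable def lsum (inc : List Bool → Bool → ℝ) : List Bool → ℝ
  | [] => 0
  | (b :: v) => lsum inc v + inc v b

/-- A criterion for exponential supermartingales. -/
theorem isSup_exp (p : Prob) (g : Rule) (inc : List Bool → Bool → ℝ)
    (h : ∀ v, p.q (pl g v) * Real.exp (inc v true) +
      (1 - p.q (pl g v)) * Real.exp (inc v false) ≤ 1) :
    IsSup p.m g (fun v => ENNReal.ofReal (Real.exp (lsum inc v))) := by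
  intro v
  have h0 := p.nonneg (pl g v)
  have h1 := p.le_one (pl g v)
  simp only [Prob.m, bit_true, bit_false, lsum]
  rw [← ENNReal.ofReal_mul h0, ← ENNReal.ofReal_mul (by linarith), ← ENNReal.ofReal_add
    (by positivity) (mul_nonneg (by linarith) (Real.exp_pos _).le)]
  apply ENNReal.ofReal_le_ofReal
  rw [Real.exp_add, Real.exp_add]
  have h2 := mul_le_mul_of_nonneg_left (h v) (Real.exp_pos (lsum inc v)).le
  linarith

/-- indicator of a bit -/
def ind (b : Bool) : ℝ := if b then 1 else 0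

/-- the increment for the law of large numbers -/
noncomputable def incL (p : Prob) (g : Rule) (θ : ℝ) (v : List Bool) (b : Bool) : ℝ :=
  if se g v then θ * ind b - (Real.exp θ - 1) * p.q (pl g v) else 0

theorem incL_ok (p : Prob) (g : Rule) (θ : ℝ) (v : List Bool) :
    p.q (pl g v) * Real.exp (incL p g θ v true) +
      (1 - p.q (pl g v)) * Real.exp (incL p g θ v false) ≤ 1 := by
  unfold incL
  split_ifs with h
  · set q := p.q (pl g v)
    set x := (Real.exp θ - 1) * q with hx
    have e1 : Real.exp (θ * ind true - x) = Real.exp θ * Real.exp (-x) := by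
      rw [← Real.exp_add]; simp [ind, sub_eq_add_neg]
    have e2 : Real.exp (θ * ind false - x) = Real.exp (-x) := by
      simp [ind]
    rw [e1, e2]
    have e3 : q * (Real.exp θ * Real.exp (-x)) + (1 - q) * Real.exp (-x) =
        (1 + x) * Real.exp (-x) := by rw [hx]; ring
    rw [e3]
    have e4 : 1 + x ≤ Real.exp x := by linarith [Real.add_one_le_exp x]
    calc (1 + x) * Real.exp (-x) ≤ Real.exp x * Real.exp (-x) :=
          mul_le_mul_of_nonneg_right e4 (Real.exp_pos _).le
      _ = 1 := by rw [← Real.exp_add]; simp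
  · simp

theorem ae_bdd_lsum (p : Prob) (g : Rule) (inc : List Bool → Bool → ℝ)
    (h : ∀ v, p.q (pl g v) * Real.exp (inc v true) +
      (1 - p.q (pl g v)) * Real.exp (inc v false) ≤ 1) :
    ∀ᵐ A ∂(law p.m), ∃ C : ℝ, ∀ k, lsum inc (hist g A k) ≤ C := by
  filter_upwards [ae_bounded p.m g _ (isSup_exp p g inc h) (by simp [lsum])] with A hA
  obtain ⟨K, hK⟩ := hA
  refine ⟨K, fun k => ?_⟩
  have h1 := hK k
  rw [← ENNReal.ofReal_natCast, ENNReal.ofReal_lt_ofReal_iff_of_nonneg (Real.exp_pos _).le] at h1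
  linarith [Real.add_one_le_exp (lsum inc (hist g A k))]

/-- the parameters -/
noncomputable def th (j : ℕ) : ℝ := 1 / ((j : ℝ) + 1)

theorem th_pos (j : ℕ) : 0 < th j := by unfold th; positivity

theorem th_le (j : ℕ) : th j ≤ 1 := by
  unfold th
  rw [div_le_one (by positivity)]
  have : (0 : ℝ) ≤ j := Nat.cast_nonneg j
  linarith

/-- `A` is good for the rule `g`. -/
def Good (p : Prob) (g : Rule) (A : ℕ → Bool) : Prop :=
  ∀ j : ℕ, (∃ C : ℝ, ∀ k, lsum (incL p g (th j)) (hist g A k) ≤ C) ∧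
    ∃ C : ℝ, ∀ k, lsum (incL p g (-(th j))) (hist g A k) ≤ C

theorem ae_good (p : Prob) (g : Rule) : ∀ᵐ A ∂(law p.m), Good p g A := by
  unfold Good
  rw [ae_all_iff]
  intro j
  filter_upwards [ae_bdd_lsum p g _ (incL_ok p g (th j)),
    ae_bdd_lsum p g _ (incL_ok p g (-(th j)))] with A h1 h2
  exact ⟨h1, h2⟩

/-! ### Runs -/

/-- `pos`, `sel` is the run of `g` on `A` -/
def IsRun (g : Rule) (A : ℕ → Bool) (pos : ℕ → ℕ) (sel : ℕ → Bool) : Prop :=
  (∀ k : ℕ, g (List.ofFn (fun i : Fin k => A (pos i))) = some (pos k, sel k)) ∧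
    Function.Injective pos

theorem run_hist {g : Rule} {A : ℕ → Bool} {pos : ℕ → ℕ} {sel : ℕ → Bool}
    (h : IsRun g A pos sel) (k : ℕ) :
    (hist g A k).reverse = List.ofFn (fun i : Fin k => A (pos i)) ∧
    st g (hist g A k) = (Finset.range k).image pos ∧
    pl g (hist g A k) = pos k ∧ se g (hist g A k) = sel k := by
  have key : ∀ k, (hist g A k).reverse = List.ofFn (fun i : Fin k => A (pos i)) →
      st g (hist g A k) = (Finset.range k).image pos →
      pl g (hist g A k) = pos k ∧ se g (hist g A k) = sel k := by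
    intro k h1 h2
    have h3 : pos k ∉ st g (hist g A k) := by
      rw [h2]
      simp only [Finset.mem_image, Finset.mem_range, not_exists, not_and]
      intro i hi he
      have := h.2 he
      omega
    have h4 := next_of_some (g := g) (v := hist g A k) (Q := st g (hist g A k)) (n := pos k)
      (s := sel k) (by rw [h1]; exact h.1 k) h3
    unfold pl se
    rw [h4]
    exact ⟨rfl, rfl⟩
  induction k with
  | zero =>
    have h1 : (hist g A 0).reverse = List.ofFn (fun i : Fin 0 => A (pos i)) := by simp [hist]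
    have h2 : st g (hist g A 0) = (Finset.range 0).image pos := by simp [hist, st]
    exact ⟨h1, h2, key 0 h1 h2⟩
  | succ k ih =>
    obtain ⟨i1, i2, i3, i4⟩ := ih
    have h1 : (hist g A (k + 1)).reverse = List.ofFn (fun i : Fin (k + 1) => A (pos i)) := by
      rw [hist, List.reverse_cons, i1, i3, List.ofFn_succ']
      simp
    have h2 : st g (hist g A (k + 1)) = (Finset.range (k + 1)).image pos := by
      rw [hist, st_cons, i2, i3, Finset.range_add_one, Finset.image_insert]
    exact ⟨h1, h2, key _ h1 h2⟩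

theorem lsum_run {g : Rule} {A : ℕ → Bool} {pos : ℕ → ℕ} {sel : ℕ → Bool}
    (h : IsRun g A pos sel) (p : Prob) (θ : ℝ) (k : ℕ) :
    lsum (incL p g θ) (hist g A k) = ∑ i ∈ Finset.range k,
      if sel i then θ * ind (A (pos i)) - (Real.exp θ - 1) * p.q (pos i) else 0 := by
  induction k with
  | zero => simp [hist, lsum]
  | succ k ih =>
    obtain ⟨-, -, i3, i4⟩ := run_hist h k
    rw [hist, lsum, ih, Finset.sum_range_succ]
    congr 1
    unfold incL
    rw [i4, i3]

theorem sum_nth (P : ℕ → Prop) [DecidablePred P] (F : ℕ → ℝ) (k : ℕ) :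
    (∑ i ∈ Finset.range k, if P i then F i else 0) =
      ∑ j ∈ Finset.range (Nat.count P k), F (Nat.nth P j) := by
  induction k with
  | zero => simp
  | succ k ih =>
    rw [Finset.sum_range_succ, ih, Nat.count_succ]
    by_cases hk : P k
    · simp only [hk, if_true]
      rw [Finset.sum_range_succ, Nat.nth_count hk]
    · simp [hk]

theorem good_sum {g : Rule} {A : ℕ → Bool} {pos : ℕ → ℕ} {sel : ℕ → Bool}
    (h : IsRun g A pos sel) (hinf : Set.Infinite {k : ℕ | sel k = true}) (p : Prob) (θ C : ℝ)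
    (hC : ∀ k, lsum (incL p g θ) (hist g A k) ≤ C) (m : ℕ) :
    ∑ j ∈ Finset.range m, (θ * ind (A (pos (Nat.nth (fun k => sel k = true) j))) -
      (Real.exp θ - 1) * p.q (pos (Nat.nth (fun k => sel k = true) j))) ≤ C := by
  have h1 := hC (Nat.nth (fun k => sel k = true) m)
  rw [lsum_run h p θ] at h1
  have h2 := sum_nth (fun k => sel k = true)
    (fun i => θ * ind (A (pos i)) - (Real.exp θ - 1) * p.q (pos i))
    (Nat.nth (fun k => sel k = true) m)
  rw [Nat.count_nth_of_infinite hinf] at h2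
  rw [← h2]
  exact h1

end Run7.h713.KL

namespace Run7.h713.KL

open MeasureTheory Filter Topology

/-- number of true bits among the first `m` selected ones -/
noncomputable def cnt (A : ℕ → Bool) (pos : ℕ → ℕ) (sel : ℕ → Bool) (m : ℕ) : ℕ :=
  ((Finset.range m).filter
    (fun j => A (pos (Nat.nth (fun k => sel k = true) j)) = true)).card

theorem cnt_eq (A : ℕ → Bool) (pos : ℕ → ℕ) (sel : ℕ → Bool) (m : ℕ) :
    (cnt A pos sel m : ℝ) =
      ∑ j ∈ Finset.range m, ind (A (pos (Nat.nth (fun k => sel k = true) j))) := by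
  unfold cnt ind
  rw [Finset.sum_boole]

/-- the frequency converges to one half -/
def HalfFreq (A : ℕ → Bool) (pos : ℕ → ℕ) (sel : ℕ → Bool) : Prop :=
  Tendsto (fun m : ℕ => (cnt A pos sel m : ℝ) / (m : ℝ)) atTop (𝓝 (1 / 2 : ℝ))

theorem exp_bd {θ : ℝ} (h : |θ| ≤ 1) : |Real.exp θ - 1 - θ| ≤ θ ^ 2 :=
  Real.abs_exp_sub_one_sub_id_le h

theorem lln {p : Prob} (hq : Tendsto p.q atTop (𝓝 (1 / 2))) {g : Rule} {A : ℕ → Bool}
    (hA : Good p g A) {pos : ℕ → ℕ} {sel : ℕ → Bool} (h : IsRun g A pos sel)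
    (hinf : Set.Infinite {k : ℕ | sel k = true}) : HalfFreq A pos sel := by
  set P : ℕ → Prop := fun k => sel k = true with hP
  set r : ℕ → ℕ := fun j => pos (Nat.nth P j) with hr
  have hinj : Function.Injective r := h.2.comp (Nat.nth_injective hinf)
  have hrt : Tendsto r atTop atTop := by
    rw [← Nat.cofinite_eq_atTop]
    exact hinj.tendsto_cofinite
  have hces := (hq.comp hrt).cesaro
  -- sums
  set T : ℕ → ℝ := fun m => ∑ j ∈ Finset.range m, ind (A (r j)) with hT
  set Q : ℕ → ℝ := fun m => ∑ j ∈ Finset.range m, p.q (r j) with hQ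
  have hces' : Tendsto (fun m : ℕ => (m : ℝ)⁻¹ * Q m) atTop (𝓝 (1 / 2)) := hces
  have hQ1 : ∀ m : ℕ, Q m ≤ m := by
    intro m
    calc Q m ≤ ∑ j ∈ Finset.range m, (1 : ℝ) := Finset.sum_le_sum fun j _ => p.le_one _
      _ = m := by simp
  have hQ0 : ∀ m : ℕ, 0 ≤ Q m := fun m => Finset.sum_nonneg fun j _ => p.nonneg _
  have hgood : ∀ (θ C : ℝ), (∀ k, lsum (incL p g θ) (hist g A k) ≤ C) → ∀ m : ℕ,
      θ * T m - (Real.exp θ - 1) * Q m ≤ C := by
    intro θ C hC m
    have h1 := good_sum h hinf p θ C hC m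
    rw [Finset.sum_sub_distrib, ← Finset.mul_sum, ← Finset.mul_sum] at h1
    exact h1
  unfold HalfFreq
  rw [Metric.tendsto_atTop]
  intro ε hε
  -- choose the parameter
  obtain ⟨j, hj⟩ := exists_nat_one_div_lt (show (0 : ℝ) < ε / 4 by positivity)
  have hθ : th j < ε / 4 := hj
  have hθ0 := th_pos j
  have hθ1 := th_le j
  obtain ⟨⟨C, hC⟩, ⟨C', hC'⟩⟩ := hA j
  have u1 := hgood _ C hC
  have u2 := hgood _ C' hC'
  have b1 := abs_le.1 (exp_bd (θ := th j) (by rw [abs_of_pos hθ0]; exact hθ1))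
  have b2 := abs_le.1 (exp_bd (θ := -(th j)) (by rw [abs_neg, abs_of_pos hθ0]; exact hθ1))
  rw [Metric.tendsto_atTop] at hces'
  obtain ⟨N1, hN1⟩ := hces' (ε / 4) (by positivity)
  obtain ⟨N2, hN2⟩ := exists_nat_gt ((|C| + |C'|) / (th j) / (ε / 4))
  refine ⟨max N1 (N2 + 1), fun m hm => ?_⟩
  have hm1 : N1 ≤ m := (le_max_left _ _).trans hm
  have hm2 : N2 + 1 ≤ m := (le_max_right _ _).trans hm
  have hm0 : (0 : ℝ) < m := by
    have : 0 < m := by omega
    exact_mod_cast this
  have c1 := hN1 m hm1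
  rw [Real.dist_eq, abs_lt] at c1
  rw [cnt_eq, Real.dist_eq]
  change |T m / (m : ℝ) - 1 / 2| < ε
  have c2 : (|C| + |C'|) / (th j) < ε / 4 * m := by
    have h1 : (|C| + |C'|) / (th j) / (ε / 4) < m := by
      refine hN2.trans_le ?_
      have : N2 ≤ m := by omega
      exact_mod_cast this
    rw [div_lt_iff₀ (by positivity)] at h1
    linarith
  have c3 : (|C| + |C'|) < th j * (ε / 4 * m) := by
    rw [div_lt_iff₀ hθ0] at c2
    linarith
  have c4 : (m : ℝ)⁻¹ * Q m * m = Q m := by field_simp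
  have c5 : Q m < (1 / 2 + ε / 4) * m := by
    rw [← c4]
    exact mul_lt_mul_of_pos_right (by linarith [c1.2]) hm0
  have c6 : (1 / 2 - ε / 4) * m < Q m := by
    rw [← c4]
    exact mul_lt_mul_of_pos_right (by linarith [c1.1]) hm0
  have d1 := u1 m
  have d2 := u2 m
  have d3 := hQ1 m
  have d4 := hQ0 m
  -- upper bound for `T`
  have e1 : th j * T m < th j * ((1 / 2 + ε) * m) := by
    have f1 : (Real.exp (th j) - 1) * Q m ≤ (th j + th j ^ 2) * Q m :=
      mul_le_mul_of_nonneg_right (by linarith [b1.2]) d4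
    have f2 : th j ^ 2 * Q m ≤ th j * (ε / 4 * m) := by
      have : th j ^ 2 * Q m ≤ th j ^ 2 * m := mul_le_mul_of_nonneg_left d3 (by positivity)
      have h2 : th j ^ 2 * m ≤ th j * (ε / 4 * m) := by
        have : th j ^ 2 * (m : ℝ) = th j * (th j * m) := by ring
        rw [this]
        exact mul_le_mul_of_nonneg_left (mul_le_mul_of_nonneg_right hθ.le hm0.le) hθ0.le
      linarith
    have f3 : C ≤ |C| + |C'| := by linarith [le_abs_self C, abs_nonneg C']
    have f4 : th j * Q m < th j * ((1 / 2 + ε / 4) * m) := mul_lt_mul_of_pos_left c5 hθ0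
    have f5 : th j * ((1 / 2 + ε) * m) = th j * ((1 / 2 + ε / 4) * m) +
      (th j * (ε / 4 * m) + th j * (ε / 4 * m) + th j * (ε / 4 * m)) := by ring
    have f6 : 0 < th j * (ε / 4 * m) := by positivity
    rw [f5]
    have f7 : (th j + th j ^ 2) * Q m = th j * Q m + th j ^ 2 * Q m := by ring
    linarith
  have e2 : th j * ((1 / 2 - ε) * m) < th j * T m := by
    have f1 : (1 - Real.exp (-(th j))) * Q m ≥ (th j - th j ^ 2) * Q m :=
      mul_le_mul_of_nonneg_right (by
        have := b2.2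
        have e : (-(th j)) ^ 2 = th j ^ 2 := by ring
        rw [e] at this
        linarith) d4
    have f2 : th j ^ 2 * Q m ≤ th j * (ε / 4 * m) := by
      have : th j ^ 2 * Q m ≤ th j ^ 2 * m := mul_le_mul_of_nonneg_left d3 (by positivity)
      have h2 : th j ^ 2 * m ≤ th j * (ε / 4 * m) := by
        have : th j ^ 2 * (m : ℝ) = th j * (th j * m) := by ring
        rw [this]
        exact mul_le_mul_of_nonneg_left (mul_le_mul_of_nonneg_right hθ.le hm0.le) hθ0.le
      linarith
    have f3 : C' ≤ |C| + |C'| := by linarith [le_abs_self C', abs_nonneg C]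
    have f4 : th j * ((1 / 2 - ε / 4) * m) < th j * Q m := mul_lt_mul_of_pos_left c6 hθ0
    have f5 : th j * ((1 / 2 - ε) * m) = th j * ((1 / 2 - ε / 4) * m) -
      (th j * (ε / 4 * m) + th j * (ε / 4 * m) + th j * (ε / 4 * m)) := by ring
    have f6 : 0 < th j * (ε / 4 * m) := by positivity
    rw [f5]
    have f7 : (th j - th j ^ 2) * Q m = th j * Q m - th j ^ 2 * Q m := by ring
    have f8 : -(th j) * T m - (Real.exp (-(th j)) - 1) * Q m =
      (1 - Real.exp (-(th j))) * Q m - th j * T m := by ring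
    rw [f8] at d2
    linarith
  have g1 : T m < (1 / 2 + ε) * m := lt_of_mul_lt_mul_left e1 hθ0.le
  have g2 : (1 / 2 - ε) * m < T m := lt_of_mul_lt_mul_left e2 hθ0.le
  rw [abs_lt]
  constructor
  · have : (1 / 2 - ε) < T m / m := by rw [lt_div_iff₀ hm0]; exact g2
    linarith
  · have : T m / m < (1 / 2 + ε) := by rw [div_lt_iff₀ hm0]; exact g1
    linarith

end Run7.h713.KL
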