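import Pool.Agent.Run7.h713.KL.Count

/-!
# The biased labelled tree

Places are words. The selection rule reads the place `w` after having seen the bits `w`. In the
block number `k` (the times `k ^ 4 < t < (k + 1) ^ 4`) the bits are slightly biased towards the bit
seen at the time `k ^ 4`.
-/

namespace Run7.h713.KL

open MeasureTheory Filter Topology
open scoped ENNReal

def pw (k : ℕ) : ℕ := (k * k) * (k * k)

def lev (t : ℕ) : ℕ := Nat.sqrt (Nat.sqrt t)

theorem le_lev {k t : ℕ} : k ≤ lev t ↔ pw k ≤ t := by
  unfold lev pw
  rw [Nat.le_sqrt, Nat.le_sqrt]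

theorem pw_lev_le (t : ℕ) : pw (lev t) ≤ t := le_lev.1 le_rfl

theorem lt_pw_lev (t : ℕ) : t < pw (lev t + 1) := by
  by_contra h
  have := le_lev.2 (not_lt.1 h)
  omega

theorem pw_mono {a b : ℕ} (h : a ≤ b) : pw a ≤ pw b :=
  le_lev.1 (h.trans (le_lev.2 le_rfl))

theorem pw_lt {a b : ℕ} (h : a < b) : pw a < pw b := by
  unfold pw
  have h1 : a * a < b * b := Nat.mul_self_lt_mul_self h
  exact Nat.mul_self_lt_mul_self h1

theorem lev_eq {k t : ℕ} (h1 : pw k ≤ t) (h2 : t < pw (k + 1)) : lev t = k := by
  have h3 := le_lev.2 h1
  by_contra hne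
  have h4 : k + 1 ≤ lev t := by omega
  have := le_lev.1 h4
  omega

/-- the bias in the block `k` -/
noncomputable def ep (k : ℕ) : ℝ := 1 / ((k : ℝ) + 2)

theorem ep_pos (k : ℕ) : 0 < ep k := by unfold ep; positivity

theorem ep_le (k : ℕ) : ep k ≤ 1 / 2 := by
  unfold ep
  apply one_div_le_one_div_of_le (by norm_num)
  have : (0 : ℝ) ≤ k := Nat.cast_nonneg k
  linarith

/-- probability that the label of `w` is true -/
noncomputable def bias (w : List Bool) : ℝ :=
  if pw (lev w.length) < w.length then
    (if w.getD (pw (lev w.length)) false = true then 1 / 2 + ep (lev w.length)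
      else 1 / 2 - ep (lev w.length))
  else 1 / 2

theorem bias_near (w : List Bool) : |bias w - 1 / 2| ≤ ep (lev w.length) := by
  have h := ep_pos (lev w.length)
  unfold bias
  split_ifs
  · rw [abs_le]; constructor <;> linarith
  · rw [abs_le]; constructor <;> linarith
  · rw [abs_le]; constructor <;> linarith

noncomputable def qf (n : ℕ) : ℝ :=
  match (Encodable.decode₂ (List Bool) n) with
  | some w => bias w
  | none => 1 / 2

theorem qf_encode (w : List Bool) : qf (Encodable.encode w) = bias w := by
  unfold qf
  rw [Encodable.encodek₂]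

theorem qf_cases (n : ℕ) : qf n = 1 / 2 ∨ ∃ w : List Bool, Encodable.encode w = n ∧
    qf n = bias w := by
  cases h : Encodable.decode₂ (List Bool) n with
  | none => left; unfold qf; rw [h]
  | some w =>
    right
    exact ⟨w, Encodable.mem_decode₂.1 h, by unfold qf; rw [h]⟩

theorem qf_near (n : ℕ) : |qf n - 1 / 2| ≤ 1 / 2 := by
  rcases qf_cases n with h | ⟨w, -, h⟩
  · rw [h]; norm_num
  · rw [h]; exact (bias_near w).trans (ep_le _)

noncomputable def p0 : Prob where
  q := qf
  nonneg n := by have := (abs_le.1 (qf_near n)).1; linarith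
  le_one n := by have := (abs_le.1 (qf_near n)).2; linarith

theorem ep_anti {a b : ℕ} (h : a ≤ b) : ep b ≤ ep a := by
  unfold ep
  apply one_div_le_one_div_of_le (by positivity)
  have : (a : ℝ) ≤ b := by exact_mod_cast h
  linarith

theorem p0_tendsto : Tendsto p0.q atTop (𝓝 (1 / 2)) := by
  rw [← Nat.cofinite_eq_atTop, Metric.tendsto_nhds]
  intro δ hδ
  rw [Filter.eventually_cofinite]
  obtain ⟨K, hK⟩ := exists_nat_one_div_lt hδ
  have hK' : ep K < δ := by
    refine lt_of_le_of_lt ?_ hK
    unfold ep
    apply one_div_le_one_div_of_le (by positivity)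
    linarith
  refine Set.Finite.subset ((List.finite_length_lt Bool (pw K)).image Encodable.encode) ?_
  intro n hn
  simp only [Set.mem_ofPred_eq, not_lt] at hn
  change δ ≤ |qf n - 1 / 2| at hn
  rcases qf_cases n with h | ⟨w, hw, h⟩
  · rw [h] at hn; norm_num at hn; linarith
  · refine ⟨w, ?_, hw⟩
    simp only [Set.mem_ofPred_eq]
    by_contra hlen
    have h1 := le_lev.2 (not_lt.1 hlen)
    rw [h] at hn
    have h2 := bias_near w
    have h3 := ep_anti h1
    linarith

/-! ### The path rule -/

def g0 : Rule := fun w => some (Encodable.encode w, true)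

theorem mem_st_g0 (v : List Bool) : ∀ n ∈ st g0 v, ∃ u : List Bool, u.length < v.length ∧
    Encodable.encode u.reverse = n := by
  induction v with
  | nil => intro n hn; simp [st] at hn
  | cons b v ih =>
    have hp : pl g0 v = Encodable.encode v.reverse := by
      have h : Encodable.encode v.reverse ∉ st g0 v := by
        intro hmem
        obtain ⟨u, hu, he⟩ := ih _ hmem
        have := Encodable.encode_injective he
        have h2 := congrArg List.length this
        simp at h2
        omega
      unfold pl
      rw [next_of_some (g := g0) (v := v) rfl h]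
    intro n hn
    rw [st_cons, Finset.mem_insert] at hn
    rcases hn with rfl | hn
    · exact ⟨v, by simp, by rw [hp]⟩
    · obtain ⟨u, hu, he⟩ := ih n hn
      exact ⟨u, by simp; omega, he⟩

theorem pl_g0 (v : List Bool) : pl g0 v = Encodable.encode v.reverse := by
  have h : Encodable.encode v.reverse ∉ st g0 v := by
    intro hmem
    obtain ⟨u, hu, he⟩ := mem_st_g0 v _ hmem
    have := Encodable.encode_injective he
    have h2 := congrArg List.length this
    simp at h2
    omega
  unfold pl
  rw [next_of_some (g := g0) (v := v) rfl h]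

/-- the places on the path -/
noncomputable def pos0 (A : ℕ → Bool) (n : ℕ) : ℕ := Encodable.encode (hist g0 A n).reverse

/-- the labels on the path -/
noncomputable def B (A : ℕ → Bool) (n : ℕ) : Bool := A (pos0 A n)

theorem hist_succ (A : ℕ → Bool) (n : ℕ) : hist g0 A (n + 1) = B A n :: hist g0 A n := by
  rw [hist, pl_g0]
  rfl

theorem hist_ofFn (A : ℕ → Bool) (n : ℕ) :
    (hist g0 A n).reverse = List.ofFn (fun i : Fin n => B A i) := by
  induction n with
  | zero => simp [hist]
  | succ n ih =>
    rw [hist_succ, List.reverse_cons, ih, List.ofFn_succ']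
    simp

theorem pos0_inj (A : ℕ → Bool) : Function.Injective (pos0 A) := by
  intro a b h
  have h1 := Encodable.encode_injective h
  have h2 := congrArg List.length h1
  simpa [hist_length] using h2

theorem run_path (A : ℕ → Bool) (s : ℕ → Bool) :
    IsRun (fun w => some (Encodable.encode w, s w.length)) A (pos0 A) s := by
  refine ⟨fun k => ?_, pos0_inj A⟩
  have h : List.ofFn (fun i : Fin k => A (pos0 A i)) = (hist g0 A k).reverse := by
    rw [hist_ofFn]; rfl
  rw [h]
  simp [pos0, hist_length]

end Run7.h713.KL
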